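import Mathlib
import Pool.Agent.Helper591.ThreeMain
import Pool.Agent.Helper591.APRec

open Finset

namespace Pool.Agent.Results.MP_7ad46c_co.DensityOne

/-- every element of `ZMod n` is a sum of three pairwise distinct elements of `A` -/
def Full (n : ℕ) (A : Finset (ZMod n)) : Prop :=
  ∀ x : ZMod n, ∃ a ∈ A, ∃ b ∈ A, ∃ c ∈ A, a ≠ b ∧ a ≠ c ∧ b ≠ c ∧ a + b + c = x

/-- the restricted `3`-critical number of the cyclic group of order `n` -/
noncomputable def chi (n : ℕ) : ℕ :=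
  sInf {m : ℕ | ∀ A : Finset (ZMod n), A.card = m → Full n A}

/-- `p` is the smallest prime divisor of `n` that is `2` modulo `3` -/
def LeastTwo (p n : ℕ) : Prop :=
  p.Prime ∧ p % 3 = 2 ∧ p ∣ n ∧ ∀ q : ℕ, q.Prime → q % 3 = 2 → q ∣ n → p ≤ q

/-- `v` is the value `f n` of the problem -/
def IsValue (n v : ℕ) : Prop :=
  (∀ p : ℕ, LeastTwo p n →
    (n = p → v = (p + 1) * n / (3 * p) + 3) ∧
    (n = 3 * p → v = (p + 1) * n / (3 * p) + 2) ∧
    (n ≠ p → n ≠ 3 * p → v = (p + 1) * n / (3 * p) + 1)) ∧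
  ((∀ p : ℕ, ¬ LeastTwo p n) →
    (9 ∣ n → v = n / 3 + 4) ∧ (¬ 9 ∣ n → v = n / 3 + 3))

/-- `IsValue n` determines the value -/
theorem isValue_unique {n v w : ℕ} (hv : IsValue n v) (hw : IsValue n w) : v = w := by
  by_cases h : ∃ p, LeastTwo p n
  · obtain ⟨p, hp⟩ := h
    by_cases h1 : n = p
    · rw [(hv.1 p hp).1 h1, (hw.1 p hp).1 h1]
    · by_cases h2 : n = 3 * p
      · rw [(hv.1 p hp).2.1 h2, (hw.1 p hp).2.1 h2]
      · rw [(hv.1 p hp).2.2 h1 h2, (hw.1 p hp).2.2 h1 h2]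
  · push Not at h
    by_cases h9 : 9 ∣ n
    · rw [(hv.2 h).1 h9, (hw.2 h).1 h9]
    · rw [(hv.2 h).2 h9, (hw.2 h).2 h9]

open Pool.Agent.Helper591.Three in
theorem two_lt_doubles {n : ℕ} [NeZero n] (hn : 5 ≤ n) : 2 < doubles (ZMod n) := by
  unfold doubles
  have key : ∀ i j : ℕ, i < n → j < n → ((i : ℕ) : ZMod n) = (j : ℕ) → i = j := by
    intro i j hi hj h
    rw [ZMod.natCast_eq_natCast_iff'] at h
    rwa [Nat.mod_eq_of_lt hi, Nat.mod_eq_of_lt hj] at h
  have h3 : (({0, 1, 2} : Finset ℕ).image (fun i => ((2 * i : ℕ) : ZMod n))).card = 3 := by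
    rw [Finset.card_image_of_injOn]
    · rfl
    · intro i hi j hj hij
      simp only [Finset.coe_insert, Finset.coe_singleton, Set.mem_insert_iff,
        Set.mem_singleton_iff] at hi hj
      have := key (2 * i) (2 * j) (by omega) (by omega) hij
      omega
  have hsub : ({0, 1, 2} : Finset ℕ).image (fun i => ((2 * i : ℕ) : ZMod n)) ⊆
      univ.image (fun g : ZMod n => g + g) := by
    intro y hy
    rw [Finset.mem_image] at hy ⊢
    obtain ⟨i, _, rfl⟩ := hy
    refine ⟨(i : ZMod n), Finset.mem_univ _, ?_⟩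
    push_cast
    ring
  have := Finset.card_le_card hsub
  omega

/-- the critical number for all large orders with a given least prime factor `2` mod `3` -/
theorem chi_eq {p : ℕ} (hp : p.Prime) (h3 : p % 3 = 2) : ∃ N : ℕ, ∀ n : ℕ, N ≤ n →
    LeastTwo p n → n ≠ p ∧ n ≠ 3 * p ∧ chi n = (p + 1) * n / (3 * p) + 1 := by
  classical
  obtain ⟨N, hN⟩ := Pool.Agent.Helper591.Three.upper_two hp h3
  refine ⟨max N (3 * p + 5), ?_⟩
  intro n hn hleast
  have hp0 := hp.pos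
  have hn1 : N ≤ n := le_trans (le_max_left _ _) hn
  have hn2 : 3 * p + 5 ≤ n := le_trans (le_max_right _ _) hn
  have hnz : NeZero n := ⟨by omega⟩
  refine ⟨by omega, by omega, ?_⟩
  have hcard : Fintype.card (ZMod n) = n := ZMod.card n
  obtain ⟨A, hA, hAc⟩ := Pool.Agent.Helper591.Three.lower_two (G := ZMod n) hp h3
    (by rw [hcard]; exact hleast.2.2.1)
  rw [hcard] at hAc
  have hv : (p + 1) * n / (3 * p) = A.card := by
    rw [← hAc]
    exact Nat.mul_div_cancel_left _ (by positivity)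
  rw [hv]
  have hmem : (A.card + 1) ∈ {m : ℕ | ∀ A : Finset (ZMod n), A.card = m → Full n A} := by
    intro B hB x
    apply hN (ZMod n) (by rw [hcard]; exact hn1)
    · intro q hq hq3 hqn
      rw [hcard] at hqn
      exact hleast.2.2.2 q hq hq3 hqn
    · intro _
      exact two_lt_doubles (by omega)
    · rw [hcard, ← hAc, hB]
      exact Nat.mul_lt_mul_of_pos_left (Nat.lt_succ_self _) (by positivity)
  apply le_antisymm (Nat.sInf_le hmem)
  by_contra hcon
  push Not at hcon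
  have hlt : chi n ≤ A.card := Nat.lt_succ_iff.mp hcon
  have hmem2 : chi n ∈ {m : ℕ | ∀ A : Finset (ZMod n), A.card = m → Full n A} :=
    Nat.sInf_mem ⟨_, hmem⟩
  obtain ⟨B, hBA, hBc⟩ := Finset.exists_subset_card_eq hlt
  obtain ⟨a, ha, b, hb, c, hc, _, _, _, hs⟩ := hmem2 B hBc 0
  exact hA a (hBA ha) b (hBA hb) c (hBA hc) hs

theorem isValue_of {p n v : ℕ} (h : LeastTwo p n) (h1 : n ≠ p) (h2 : n ≠ 3 * p)
    (hv : v = (p + 1) * n / (3 * p) + 1) : IsValue n v := by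
  refine ⟨?_, fun hno => absurd h (hno p)⟩
  intro q hq
  have : q = p := le_antisymm (hq.2.2.2 p h.1 h.2.1 h.2.2.1) (h.2.2.2 q hq.1 hq.2.1 hq.2.2.1)
  subst this
  exact ⟨fun h => absurd h h1, fun h => absurd h h2, fun _ _ => hv⟩

theorem exists_least {n r : ℕ} (hr : r.Prime) (hr3 : r % 3 = 2) (hrn : r ∣ n) :
    ∃ p, LeastTwo p n ∧ p ≤ r := by
  classical
  have hex : ∃ p, p.Prime ∧ p % 3 = 2 ∧ p ∣ n := ⟨r, hr, hr3, hrn⟩
  refine ⟨Nat.find hex, ⟨(Nat.find_spec hex).1, (Nat.find_spec hex).2.1,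
    (Nat.find_spec hex).2.2, fun q hq hq3 hqn => Nat.find_min' hex ⟨hq, hq3, hqn⟩⟩,
    Nat.find_min' hex ⟨hr, hr3, hrn⟩⟩

/-- For every prime `p = 2` mod `3` the conjectured value is correct for all but finitely many
`n` whose least prime divisor `2` mod `3` is `p`; hence it is correct for almost all `n`. -/
theorem result :
    (∀ p : ℕ, ∃ N : ℕ, ∀ n : ℕ, N ≤ n → LeastTwo p n → IsValue n (chi n)) ∧
    Filter.Tendsto
      (fun N : ℕ => (({n : ℕ | 16 ≤ n ∧ n ≤ N ∧ ¬ IsValue n (chi n)}.ncard : ℕ) : ℝ) / (N : ℝ))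
      Filter.atTop (nhds 0) := by
  classical
  have part1 : ∀ p : ℕ, ∃ N : ℕ, ∀ n : ℕ, N ≤ n → LeastTwo p n → IsValue n (chi n) := by
    intro p
    by_cases hp : p.Prime ∧ p % 3 = 2
    · obtain ⟨N, hN⟩ := chi_eq hp.1 hp.2
      refine ⟨N, fun n hn hl => ?_⟩
      obtain ⟨h1, h2, h3⟩ := hN n hn hl
      exact isValue_of hl h1 h2 h3
    · exact ⟨0, fun n _ hl => absurd ⟨hl.1, hl.2.1⟩ hp⟩
  refine ⟨part1, ?_⟩
  choose T hT using part1
  have hunit : IsUnit (2 : ZMod 3) := by decide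
  have hns := Pool.Agent.Helper591.APRec.not_summable_g (q := 3) hunit
  rw [Metric.tendsto_atTop]
  intro ε hε
  obtain ⟨F0, hF0⟩ : ∃ F0 : Finset ℕ, Real.log (2 / ε) + 1 <
      ∑ n ∈ F0, Pool.Agent.Helper591.APRec.g (2 : ZMod 3) n := by
    by_contra hcon
    push Not at hcon
    exact hns (summable_of_sum_le (fun n => Pool.Agent.Helper591.APRec.g_nonneg _ n) hcon)
  set F := F0.filter (fun n => n.Prime ∧ ((n : ℕ) : ZMod 3) = 2) with hFdef
  have hsum : ∑ n ∈ F0, Pool.Agent.Helper591.APRec.g (2 : ZMod 3) n = ∑ p ∈ F, (1 : ℝ) / p := by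
    rw [hFdef, Finset.sum_filter]
    rfl
  have hF : ∀ p ∈ F, p.Prime ∧ p % 3 = 2 := by
    intro p hp
    rw [hFdef, Finset.mem_filter] at hp
    refine ⟨hp.2.1, ?_⟩
    have h1 : ((p : ℕ) : ZMod 3) = ((2 : ℕ) : ZMod 3) := by simpa using hp.2.2
    rw [ZMod.natCast_eq_natCast_iff'] at h1
    omega
  have hexp : Real.exp (-∑ p ∈ F, (1 : ℝ) / p) < ε / 2 := by
    rw [hsum] at hF0
    calc Real.exp (-∑ p ∈ F, (1 : ℝ) / p) < Real.exp (-Real.log (2 / ε)) := by
          apply Real.exp_lt_exp.mpr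
          linarith
      _ = ε / 2 := by
          rw [Real.exp_neg, Real.exp_log (by positivity)]
          field_simp
  set M := ∏ p ∈ F, p with hM
  have hM0 : M ≠ 0 := Finset.prod_ne_zero_iff.mpr fun p hp => (hF p hp).1.ne_zero
  -- a common threshold
  set L := ∑ q ∈ Finset.range (M + 1), T q with hL
  have hbound : ∀ N : ℕ, (({n : ℕ | 16 ≤ n ∧ n ≤ N ∧ ¬ IsValue n (chi n)}.ncard : ℕ) : ℝ) ≤
      Real.exp (-∑ p ∈ F, (1 : ℝ) / p) * N + (M + L : ℕ) := by
    intro N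
    have hsub : {n : ℕ | 16 ≤ n ∧ n ≤ N ∧ ¬ IsValue n (chi n)} ⊆
        ((((Finset.Ico 1 (1 + N)).filter (fun x => M.Coprime x)) ∪ Finset.range L : Finset ℕ) :
          Set ℕ) := by
      rintro n ⟨h1, h2, h3⟩
      rw [Finset.mem_coe, Finset.mem_union, Finset.mem_filter, Finset.mem_Ico, Finset.mem_range]
      by_contra hcon
      rw [not_or, not_and] at hcon
      obtain ⟨h4, h5⟩ := hcon
      have h6 := h4 ⟨by omega, by omega⟩
      push Not at h5
      apply h6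
      apply Nat.Coprime.prod_left
      intro p hp
      rw [(hF p hp).1.coprime_iff_not_dvd]
      intro hdvd
      apply h3
      obtain ⟨q, hq, hqp⟩ := exists_least (hF p hp).1 (hF p hp).2 hdvd
      apply hT q n _ hq
      refine le_trans ?_ h5
      have hpM : p ≤ M := Nat.le_of_dvd (Nat.pos_of_ne_zero hM0) (Finset.dvd_prod_of_mem _ hp)
      exact Finset.single_le_sum (f := T) (fun _ _ => Nat.zero_le _)
        (Finset.mem_range.mpr (by omega))
    have h1 : {n : ℕ | 16 ≤ n ∧ n ≤ N ∧ ¬ IsValue n (chi n)}.ncard ≤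
        Nat.totient M * (N / M + 1) + L := by
      refine (Set.ncard_le_ncard hsub (Finset.finite_toSet _)).trans ?_
      rw [Set.ncard_coe_finset]
      refine (Finset.card_union_le _ _).trans ?_
      rw [Finset.card_range]
      exact Nat.add_le_add_right (Nat.Ico_filter_coprime_le 1 N hM0) _
    have h2 : (({n : ℕ | 16 ≤ n ∧ n ≤ N ∧ ¬ IsValue n (chi n)}.ncard : ℕ) : ℝ) ≤
        (Nat.totient M : ℝ) * (((N / M : ℕ) : ℝ) + 1) + L := by
      exact_mod_cast h1
    have hM0' : (0 : ℝ) < M := by exact_mod_cast Nat.pos_of_ne_zero hM0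
    have h3 : ((N / M : ℕ) : ℝ) ≤ (N : ℝ) / M := Nat.cast_div_le
    have h4 := Pool.Agent.Helper591.APRec.totient_prod_le F fun p hp => (hF p hp).1
    rw [← hM] at h4
    have h5 : (Nat.totient M : ℝ) ≤ M := by exact_mod_cast Nat.totient_le M
    calc (({n : ℕ | 16 ≤ n ∧ n ≤ N ∧ ¬ IsValue n (chi n)}.ncard : ℕ) : ℝ)
        ≤ (Nat.totient M : ℝ) * (((N / M : ℕ) : ℝ) + 1) + L := h2
      _ = (Nat.totient M : ℝ) * ((N / M : ℕ) : ℝ) + (Nat.totient M : ℝ) + L := by ring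
      _ ≤ (M * Real.exp (-∑ p ∈ F, (1 : ℝ) / p)) * ((N : ℝ) / M) + M + L := by
          refine add_le_add_left (add_le_add (mul_le_mul h4 h3 (by positivity) (by positivity)) h5) _
      _ = Real.exp (-∑ p ∈ F, (1 : ℝ) / p) * N + (M + L : ℕ) := by
          push_cast
          field_simp
          ring
  obtain ⟨N0, hN0⟩ := exists_nat_gt (2 * ((M + L : ℕ) : ℝ) / ε)
  refine ⟨N0 + 1, fun N hN => ?_⟩
  have hNpos : (0 : ℝ) < N := by
    have : 0 < N := by omega
    exact_mod_cast this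
  have hNN : 2 * ((M + L : ℕ) : ℝ) / ε < N := by
    have : (N0 : ℝ) ≤ N := by exact_mod_cast (by omega : N0 ≤ N)
    linarith
  have hMN : ((M + L : ℕ) : ℝ) < ε / 2 * N := by
    rw [div_lt_iff₀ hε] at hNN
    linarith
  have hb := hbound N
  rw [Real.dist_eq, sub_zero, abs_of_nonneg (by positivity), div_lt_iff₀ hNpos]
  have h6 : Real.exp (-∑ p ∈ F, (1 : ℝ) / p) * N < ε / 2 * N :=
    mul_lt_mul_of_pos_right hexp hNpos
  linarith

end Pool.Agent.Results.MP_7ad46c_co.DensityOne
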